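import Pool.Agent.H810.Dual.Main

/-!
# Subspace concentration of dual curvature measures on lines, for all `q > n`

Let `n ≥ 2` and `q > n`. If an (even) Borel measure `μ` on `S^{n-1}` is the `q`-th dual curvature
measure of an origin-symmetric convex body of `ℝ^n`, then for every line `L` through the origin
`μ(L ∩ S^{n-1}) < ((q - n + 1) / q) μ(S^{n-1})`.

For `q ≥ n + 1` this is due to Henk and Pollehn; the range `n < q < n + 1` is new.
-/

set_option autoImplicit false

namespace Pool.Agent.Results.MP_b0d2bf_gt.LineConcentration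

open MeasureTheory Pool.Agent.H810.Dual
open scoped ENNReal

/-- For `q > n ≥ 2`, the `q`-th dual curvature measure `μ` of an origin-symmetric convex body of
`ℝ^n` satisfies `μ(L ∩ S^{n-1}) < ((q - n + 1) / q) μ(S^{n-1})` for every one-dimensional linear
subspace `L`. -/
theorem result {n : ℕ} (hn : 2 ≤ n) {q : ℝ} (hq : (n : ℝ) < q) {K : Set (E n)}
    (hK : IsSymBody K) {μ : Measure (Sph n)} (hμ : IsDualCurv q K μ) (L : Submodule ℝ (E n))
    (hL : Module.finrank ℝ L = 1) :
    μ {u : Sph n | (u : E n) ∈ L} < ENNReal.ofReal ((q - n + 1) / q) * μ Set.univ := by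
  have hclosed : IsClosed {u : Sph n | (u : E n) ∈ L} :=
    L.closed_of_finiteDimensional.preimage continuous_subtype_val
  rw [hμ _ hclosed.measurableSet, hμ _ MeasurableSet.univ]
  obtain ⟨v, hv⟩ := line_dirs L hL
  rw [hv]
  exact dualCurv_pair_lt hn hq hK v

end Pool.Agent.Results.MP_b0d2bf_gt.LineConcentration
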