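import Pool.Agent.H810.Dual.Three
import Pool.Agent.H810.Dual.Defs2

/-!
# In the plane the subspace concentration inequalities are not sufficient

Let `n = 2` and `q > 2`. There is an even finite Borel measure `μ ≠ 0` on `S^1` (supported on three
pairs of antipodal directions) which satisfies
`μ(L ∩ S^1) < ((q - 2 + dim L) / q) μ(S^1)` for every proper linear subspace `L` of `ℝ^2`, and which
is not the `q`-th dual curvature measure of any origin-symmetric convex body.

So the necessary condition of Henk and Pollehn does not characterise the even dual curvature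
measures, for any `q > 2` in the plane.
-/

set_option autoImplicit false

namespace Pool.Agent.Results.MP_b0d2bf_gt.PlaneNotSufficient

open MeasureTheory Pool.Agent.H810.Dual
open scoped ENNReal

/-- For `n = 2` and every `q > 2` the inequalities `μ(L ∩ S^1) < ((q - 2 + dim L)/q) μ(S^1)` for
all proper subspaces `L` do not suffice for an even measure `μ ≠ 0` to be the `q`-th dual curvature
measure of an origin-symmetric convex body. -/
theorem result {q : ℝ} (hq : 2 < q) :
    ∃ μ : Measure (Sph 2), μ ≠ 0 ∧ IsFiniteMeasure μ ∧ IsEven μ ∧ Concentrated q μ ∧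
      ¬ IsSymDualCurv q μ := by
  obtain ⟨p, rfl⟩ : ∃ p : ℝ, q = p + 2 := ⟨q - 2, by ring⟩
  have hp : 0 < p := by linarith
  have hp2 : 0 < p + 2 := by linarith
  set c0 : ℝ := (2 / (p + 2)) ^ (1 / p) with hc0
  have hb0 : 0 < 2 / (p + 2) := by positivity
  have hb1 : 2 / (p + 2) < 1 := by rw [div_lt_one hp2]; linarith
  have hc00 : 0 ≤ c0 := Real.rpow_nonneg hb0.le _
  have hc01 : c0 < 1 := Real.rpow_lt_one hb0.le hb1 (by positivity)
  have hcp : c0 ^ p = 2 / (p + 2) := by
    rw [hc0, ← Real.rpow_mul hb0.le, one_div_mul_cancel hp.ne', Real.rpow_one]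
  have hk : 0 < (1 - c0) / (256 * 4 ^ p * (p + 2)) := by
    have h1 : 0 < 1 - c0 := by linarith
    have h2 : (0 : ℝ) < 4 ^ p := by positivity
    positivity
  have hlt1 : (p + 2) / (p + 4) < (p + 1) / (p + 2) := by
    rw [div_lt_div_iff₀ (by linarith) hp2]
    nlinarith
  have hlt2 : (p + 1) / (p + 2) * (1 - (1 - c0) / (256 * 4 ^ p * (p + 2))) <
      (p + 1) / (p + 2) := by
    have h1 : 0 < (p + 1) / (p + 2) := by positivity
    nlinarith
  obtain ⟨M, hM1, hM2⟩ := exists_between (max_lt hlt1 hlt2)
  have hMa := (le_max_left _ _).trans_lt hM1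
  have hMb := (le_max_right _ _).trans_lt hM1
  have hM0 : 0 ≤ M := (by positivity : (0 : ℝ) ≤ (p + 2) / (p + 4)).trans hMa.le
  have hM3 : M < 1 := hM2.trans (by rw [div_lt_one hp2]; linarith)
  set s : ℝ := (1 - M) / 4 with hs
  have hs0 : 0 < s := by rw [hs]; linarith
  have hsM : 4 * s + M = 1 := by rw [hs]; ring
  have htot := three_univ hs0.le hM0 hsM
  refine ⟨three s M, ?_, ?_, fun ω hω => three_even s M hω, ?_, ?_⟩
  · intro h0
    rw [h0] at htot
    simp at htot
  · exact ⟨by rw [htot]; exact ENNReal.one_lt_top⟩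
  · intro L hL
    have h := three_line hq hs0 hM0 hsM (by
      rw [show p + 2 - 1 = p + 1 by ring]; exact hM2) L hL
    rw [show ((2 : ℕ) : ℝ) = 2 by norm_num]
    exact h
  · exact no_body hp hc00 hc01 hcp hs0 hsM hM2 hMa hMb htot (three_pairA hs0.le)
      (three_pairB hs0.le) (three_pairC hM0) (three_compl s M)

end Pool.Agent.Results.MP_b0d2bf_gt.PlaneNotSufficient
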